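import Mathlib
import Pool.Agent.H41.AL.Defs

/-!
# Correspondence packings with `(1 + ε) Δ` colours: the final step
-/

set_option autoImplicit false

namespace Pool.Agent.H299.AL

open Equiv Pool.Agent.H41.AL

/-- F10 -/
theorem fin (hcut : S_CUT) (hfac : S_FACTOR) (hpart : S_PART) (hrun : S_RUN) (hparm : S_PARM) :
    S_FIN := by
  intro ε hε
  have hε1 : 0 < min ε 1 := lt_min hε one_pos
  obtain ⟨K, Am, η', ε', A, D₀, hK, hAm, hη', hη'1, hε', hε'1, hA0, hA, hparm'⟩ :=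
    hparm (min ε 1) hε1 (min_le_right _ _)
  obtain ⟨η, hη, hη1, n₀, hcut'⟩ := hcut η' Am hη' hη'1 hAm
  obtain ⟨c₁, hc₁, D₁, hpart'⟩ := hpart ε' K hε' hε'1 hK
  have hAm0 : 0 < Am := lt_of_lt_of_le one_pos hAm
  obtain ⟨lam, hlam⟩ : ∃ lam : ℝ, lam = η / (50 * Am ^ 4) := ⟨_, rfl⟩
  have hlam0 : 0 < lam := by
    rw [hlam]
    positivity
  have hlam5 : lam * (5 * Am ^ 2) ≤ 1 := by
    rw [hlam, div_mul_eq_mul_div, div_le_one (by positivity)]
    have h1 : (1 : ℝ) ≤ Am ^ 2 := one_le_pow₀ hAm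
    nlinarith [mul_le_mul_of_nonneg_left h1 (sq_nonneg Am), sq_nonneg Am]
  have hlam25 : 25 * lam ^ 2 * Am ^ 4 = lam * η / 2 := by
    rw [hlam]
    field_simp
    ring
  obtain ⟨t, ht⟩ : ∃ t : ℝ, t = lam * η / 4 := ⟨_, rfl⟩
  have ht0 : 0 < t := by
    rw [ht]
    positivity
  refine ⟨min c₁ t, max (max D₀ D₁) (max n₀ ⌈30 / t ^ 3⌉₊), lt_min hc₁ ht0, ?_⟩
  intro D hD V _ _ G _ n hdeg hcard hn σ hσ
  have hDD₀ : D₀ ≤ D := le_trans (le_trans (le_max_left _ _) (le_max_left _ _)) hD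
  have hDD₁ : D₁ ≤ D := le_trans (le_trans (le_max_right _ _) (le_max_left _ _)) hD
  have hDn₀ : n₀ ≤ D := le_trans (le_trans (le_max_left _ _) (le_max_right _ _)) hD
  have hDt : ⌈30 / t ^ 3⌉₊ ≤ D := le_trans (le_trans (le_max_right _ _) (le_max_right _ _)) hD
  have hD0 : (0 : ℝ) ≤ D := Nat.cast_nonneg D
  have hDnR : (D : ℝ) ≤ n := by nlinarith [mul_nonneg hε.le hD0]
  have hDn : D ≤ n := by exact_mod_cast hDnR
  obtain ⟨L, hL3, hLle, hLpow⟩ := hparm' D hDD₀ n (le_trans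
    (mul_le_mul_of_nonneg_right (by linarith [min_le_left ε 1]) hD0) hn)
  have hd0 : 0 ≤ (1 + ε') * D / K := by positivity
  obtain ⟨ρ, hρ⟩ := hpart' D hDD₁ V G hdeg (hcard.trans (Real.exp_le_exp.2
    (mul_le_mul_of_nonneg_right (min_le_left _ _) hD0)))
  have hn30 : 30 / t ^ 3 ≤ n :=
    (Nat.le_ceil _).trans ((Nat.cast_le.2 hDt).trans hDnR)
  have hexp5 : 5 * (n : ℝ) ^ 2 ≤ Real.exp (t * n) := by
    have h1 := Real.pow_div_factorial_le_exp (t * n) (by positivity) 3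
    have h2 : ((Nat.factorial 3 : ℕ) : ℝ) = 6 := by norm_num [Nat.factorial]
    rw [h2] at h1
    refine le_trans ?_ h1
    rw [le_div_iff₀ (by norm_num), mul_pow]
    rw [div_le_iff₀ (by positivity)] at hn30
    have h3 : 0 ≤ (n : ℝ) ^ 2 := sq_nonneg _
    calc 5 * (n : ℝ) ^ 2 * 6 = 30 * (n : ℝ) ^ 2 := by ring
      _ ≤ (n * t ^ 3) * (n : ℝ) ^ 2 := mul_le_mul_of_nonneg_right hn30 h3
      _ = t ^ 3 * (n : ℝ) ^ 3 := by ring
  have hcardn : (Fintype.card V : ℝ) ≤ Real.exp (t * n) := by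
    refine hcard.trans (Real.exp_le_exp.2 ?_)
    exact mul_le_mul (min_le_right _ _) hDnR hD0 ht0.le
  have hpot : Real.exp (25 * lam ^ 2 * Am ^ 4 * D) * (Fintype.card V * (5 * (n : ℝ) ^ 2)) ≤
      Real.exp (lam * (η * n)) := by
    rw [hlam25]
    have h1 : Real.exp (lam * η / 2 * D) ≤ Real.exp (2 * (t * n)) := by
      apply Real.exp_le_exp.2
      rw [ht]
      have : lam * η / 2 * D ≤ lam * η / 2 * n :=
        mul_le_mul_of_nonneg_left hDnR (by positivity)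
      linarith
    have h2 : (Fintype.card V : ℝ) * (5 * (n : ℝ) ^ 2) ≤ Real.exp (t * n) * Real.exp (t * n) :=
      mul_le_mul hcardn hexp5 (by positivity) (Real.exp_pos _).le
    calc Real.exp (lam * η / 2 * D) * (Fintype.card V * (5 * (n : ℝ) ^ 2))
        ≤ Real.exp (2 * (t * n)) * (Real.exp (t * n) * Real.exp (t * n)) :=
          mul_le_mul h1 h2 (by positivity) (Real.exp_pos _).le
      _ = Real.exp (lam * (η * n)) := by
          rw [← Real.exp_add, ← Real.exp_add, ht]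
          congr 1
          ring
  refine hrun V G n K D ⌊(1 + ε') * D / K⌋₊ ρ σ L A Am lam η hσ hdeg
    (fun v i => Nat.le_floor (hρ v i)) hA0 hL3 (hLpow _ (Nat.floor_le hd0))
    (fun i hi => (hA i hi).2) hlam0 hlam5 hpot (fun i hi W hW => ?_)
  have h1 := hcut' n (hDn₀.trans hDn) W (A (i + 1)) (hA (i + 1) hi).1 (hA (i + 1) hi).2 hW (L i)
    (hLle i hi)
  exact hfac n (L i) (fun j c => W j c ≠ 0) h1

end Pool.Agent.H299.AL
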